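import Mathlib

/-!
# An ordered set of interval dimension `2` without rank-preserving interval realizers

The disjoint union of a chain with three elements `0 < 1 < 2` and a chain with two elements
`3 < 4` has interval dimension `2`, but it has no rank-preserving interval realizer at all.
-/

set_option autoImplicit false

namespace Pool.Agent.Results.MP_f8d954_co.NoRankPreserving

variable {α : Type}

/-- The strict part of a relation. -/
def Lt (le : α → α → Prop) (x y : α) : Prop := le x y ∧ x ≠ y

/-- `le` is an interval order: a partial order without `a < c`, `b < d`, `b ≰ c`, `a ≰ d`. -/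
def IsIntervalOrder (le : α → α → Prop) : Prop :=
  IsPartialOrder α le ∧ ¬ ∃ a b c d, Lt le a c ∧ Lt le b d ∧ ¬ le b c ∧ ¬ le a d

/-- The interval orders `L 0, …, L (k - 1)` have the intersection `le`. -/
def IsIntervalRealizer (le : α → α → Prop) (k : ℕ) (L : Fin k → α → α → Prop) : Prop :=
  (∀ j, IsIntervalOrder (L j)) ∧ ∀ x y, le x y ↔ ∀ j, L j x y

/-- `k` is the interval dimension of `le`. -/
def IsIntervalDimension (le : α → α → Prop) (k : ℕ) : Prop :=
  IsLeast {k : ℕ | ∃ L : Fin k → α → α → Prop, IsIntervalRealizer le k L} k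

/-- The rank of `p`: the largest `m` for which there is a chain with `m + 1` elements whose largest
element is `p`. -/
noncomputable def rank (le : α → α → Prop) (p : α) : ℕ :=
  sSup {m : ℕ | ∃ f : Fin (m + 1) → α, (∀ i j, i < j → Lt le (f i) (f j)) ∧ f (Fin.last m) = p}

/-- A rank-preserving interval realizer. -/
def IsRankPreserving (le : α → α → Prop) (k : ℕ) (L : Fin k → α → α → Prop) : Prop :=
  IsIntervalRealizer le k L ∧ ∀ j p, rank (L j) p = rank le p

section general

variable [Fintype α] {le : α → α → Prop}

theorem bdd (p : α) : BddAbove {m : ℕ | ∃ f : Fin (m + 1) → α,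
    (∀ i j, i < j → Lt le (f i) (f j)) ∧ f (Fin.last m) = p} := by
  refine ⟨Fintype.card α, ?_⟩
  rintro m ⟨f, hf, -⟩
  have hinj : Function.Injective f := by
    intro i j hij
    rcases lt_trichotomy i j with h | h | h
    · exact absurd hij (hf i j h).2
    · exact h
    · exact absurd hij.symm (hf j i h).2
  have := Fintype.card_le_of_injective f hinj
  rw [Fintype.card_fin] at this
  omega

omit [Fintype α] in
theorem ne (p : α) : {m : ℕ | ∃ f : Fin (m + 1) → α,
    (∀ i j, i < j → Lt le (f i) (f j)) ∧ f (Fin.last m) = p}.Nonempty := by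
  refine ⟨0, fun _ => p, ?_, rfl⟩
  intro i j hij
  rw [Fin.lt_def] at hij
  have := j.isLt
  omega

theorem rank_lt (hle : IsPartialOrder α le) {x y : α} (h : Lt le x y) :
    rank le x + 1 ≤ rank le y := by
  have hmem : rank le x ∈ {m : ℕ | ∃ f : Fin (m + 1) → α,
    (∀ i j, i < j → Lt le (f i) (f j)) ∧ f (Fin.last m) = x} := Nat.sSup_mem (ne x) (bdd x)
  generalize rank le x = r at hmem ⊢
  obtain ⟨f, hf, hx'⟩ := hmem
  refine le_csSup (bdd y) ?_
  have hlex : ∀ i, le (f i) x := by
    intro i
    rcases (Fin.le_last i).lt_or_eq with h1 | h1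
    · have := (hf i _ h1).1
      rwa [hx'] at this
    · rw [h1, hx']
      exact hle.refl x
  refine ⟨Fin.snoc f y, ?_, ?_⟩
  · intro i j hij
    induction j using Fin.lastCases with
    | last =>
      induction i using Fin.lastCases with
      | last => exact absurd hij (lt_irrefl _)
      | cast i =>
        rw [Fin.snoc_castSucc, Fin.snoc_last]
        refine ⟨hle.trans _ _ _ (hlex i) h.1, ?_⟩
        intro he
        apply h.2
        have h1 := hlex i
        rw [he] at h1
        exact hle.antisymm _ _ h.1 h1
    | cast j =>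
      induction i using Fin.lastCases with
      | last => exact absurd hij (by simp [Fin.lt_def])
      | cast i =>
        rw [Fin.snoc_castSucc, Fin.snoc_castSucc]
        exact hf i j (Fin.castSucc_lt_castSucc_iff.mp hij)
  · rw [Fin.snoc_last]

end general

/-- The disjoint union of the chains `0 < 1 < 2` and `3 < 4`. -/
def le (x y : Fin 5) : Prop :=
  x = y ∨ (x = 0 ∧ y = 1) ∨ (x = 0 ∧ y = 2) ∨ (x = 1 ∧ y = 2) ∨ (x = 3 ∧ y = 4)

instance : DecidableRel le := fun x y => by unfold le; infer_instance

/-- Two linear extensions of `le`, given by the positions of the elements. -/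
def pos : Fin 2 → Fin 5 → ℕ := ![![0, 1, 2, 3, 4], ![2, 3, 4, 0, 1]]

theorem isPartialOrder_le : IsPartialOrder (Fin 5) le :=
  { refl := by decide
    trans := by decide
    antisymm := by decide }

theorem realizer : IsIntervalRealizer le 2 (fun j x y => pos j x ≤ pos j y) := by
  refine ⟨fun j => ⟨{ refl := ?_, trans := ?_, antisymm := ?_ }, ?_⟩, ?_⟩
  · revert j; decide
  · revert j; decide
  · revert j; decide
  · revert j; unfold Lt; decide
  · decide

theorem dimension : IsIntervalDimension le 2 := by
  refine ⟨⟨_, realizer⟩, ?_⟩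
  rintro k ⟨L, hL, hle⟩
  by_contra hk
  push Not at hk
  interval_cases k
  · have := (hle 1 0).mpr (fun j => j.elim0)
    revert this; decide
  · apply (hL 0).2
    refine ⟨1, 3, 2, 4, ?_, ?_, ?_, ?_⟩
    · exact ⟨(hle 1 2).mp (by decide) 0, by decide⟩
    · exact ⟨(hle 3 4).mp (by decide) 0, by decide⟩
    · intro h
      have := (hle 3 2).mpr (fun j => by rw [Subsingleton.elim j 0]; exact h)
      revert this; decide
    · intro h
      have := (hle 1 4).mpr (fun j => by rw [Subsingleton.elim j 0]; exact h)
      revert this; decide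

theorem rank_one : 1 ≤ rank le 1 := by
  refine le_csSup (bdd 1) ⟨![0, 1], ?_, rfl⟩
  unfold Lt
  decide

theorem rank_four : rank le 4 ≤ 1 := by
  refine csSup_le (ne 4) ?_
  rintro m ⟨f, hf, h4⟩
  by_contra hm
  push Not at hm
  have key : ∀ x : Fin 5, Lt le x 4 → x = 3 := by unfold Lt; decide
  have h0 : f ⟨0, by omega⟩ = 3 := key _ (by
    rw [← h4]
    exact hf _ _ (by rw [Fin.lt_def]; simp; omega))
  have h1 : f ⟨1, by omega⟩ = 3 := key _ (by
    rw [← h4]
    exact hf _ _ (by rw [Fin.lt_def]; simp; omega))
  exact (hf ⟨0, by omega⟩ ⟨1, by omega⟩ (by rw [Fin.lt_def]; simp)).2 (h0.trans h1.symm)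

/-- There is a finite ordered set of interval dimension `2` that has no rank-preserving interval
realizer, whatever the number of the interval orders. -/
theorem result : ∃ le : Fin 5 → Fin 5 → Prop, IsPartialOrder (Fin 5) le ∧
    IsIntervalDimension le 2 ∧
    ∀ (k : ℕ) (L : Fin k → Fin 5 → Fin 5 → Prop), ¬ IsRankPreserving le k L := by
  refine ⟨le, isPartialOrder_le, dimension, ?_⟩
  rintro k L ⟨⟨hL, hle⟩, hrank⟩
  have h : le 3 2 := by
    rw [hle]
    intro j
    by_contra hc
    have hi := (hL j).2
    apply hi
    refine ⟨1, 3, 2, 4, ?_, ?_, hc, ?_⟩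
    · exact ⟨(hle 1 2).mp (by decide) j, by decide⟩
    · exact ⟨(hle 3 4).mp (by decide) j, by decide⟩
    · intro h14
      have h1 := rank_lt (hL j).1 (x := 1) (y := 4) ⟨h14, by decide⟩
      rw [hrank, hrank] at h1
      have h2 := rank_one
      have h3 := rank_four
      omega
  revert h; decide

end Pool.Agent.Results.MP_f8d954_co.NoRankPreserving
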